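import Pool.Agent.H978R2.Hex.Disj

set_option autoImplicit false

/-! Pairs of disjoint self-avoiding walks of lengths `n` and `m` on the honeycomb lattice correspond
to self-avoiding walks of length `n + m`. -/

namespace Pool.Agent.NH41.HD

open H978R2.Hex

/-- pairs of walks which only meet at the origin -/
def dpairs2 (n m : ℕ) : Set ((Fin (n + 1) → V) × (Fin (m + 1) → V)) :=
  {p | p.1 ∈ saws n ∧ p.2 ∈ saws m ∧ ∀ i j, i ≠ 0 → p.1 i ≠ p.2 j}

theorem card_dpairs2 (n m : ℕ) : (dpairs2 n m).ncard = (saws (n + m)).ncard := by
  classical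
  refine Set.ncard_congr (fun p _ => fun k : Fin (n + m + 1) =>
    sy n (p.1 (Fin.last n)) (if h : k.1 ≤ n then p.1 ⟨n - k.1, by omega⟩
      else p.2 ⟨k.1 - n, by omega⟩)) ?_ ?_ ?_
  · rintro ⟨f, g⟩ ⟨hf, hg, hd⟩
    simp only at hf hg hd ⊢
    have hlast : f (Fin.last n) = f ⟨n, by omega⟩ := rfl
    have hpar := saws_parity hf n (by omega)
    refine ⟨?_, ?_, ?_⟩
    · simp only [Fin.val_zero, Nat.zero_le, Nat.sub_zero]
      exact sy_self _ _
    · intro i j hij
      have h1 := sy_inj hij
      by_cases hi : i.1 ≤ n <;> by_cases hj : j.1 ≤ n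
      · rw [dif_pos hi, dif_pos hj] at h1
        have h2 := hf.2.1 h1
        simp only [Fin.mk.injEq] at h2
        exact Fin.ext (by omega)
      · rw [dif_pos hi, dif_neg hj] at h1
        exfalso
        by_cases h0 : n - i.1 = 0
        · have e : f ⟨n - i.1, by omega⟩ = 0 := by
            have : (⟨n - i.1, by omega⟩ : Fin (n + 1)) = 0 := Fin.ext h0
            rw [this]
            exact hf.1
          rw [e, ← hg.1] at h1
          have h2 := hg.2.1 h1
          have h3 := congrArg Fin.val h2
          simp only [Fin.val_zero] at h3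
          omega
        · exact hd ⟨n - i.1, by omega⟩ ⟨j.1 - n, by omega⟩
            (fun h => h0 (by have := congrArg Fin.val h; simpa using this)) h1
      · rw [dif_neg hi, dif_pos hj] at h1
        exfalso
        by_cases h0 : n - j.1 = 0
        · have e : f ⟨n - j.1, by omega⟩ = 0 := by
            have : (⟨n - j.1, by omega⟩ : Fin (n + 1)) = 0 := Fin.ext h0
            rw [this]
            exact hf.1
          rw [e, ← hg.1] at h1
          have h2 := hg.2.1 h1
          have h3 := congrArg Fin.val h2
          simp only [Fin.val_zero] at h3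
          omega
        · exact hd ⟨n - j.1, by omega⟩ ⟨i.1 - n, by omega⟩
            (fun h => h0 (by have := congrArg Fin.val h; simpa using this)) h1.symm
      · rw [dif_neg hi, dif_neg hj] at h1
        have h2 := hg.2.1 h1
        simp only [Fin.mk.injEq] at h2
        exact Fin.ext (by omega)
    · intro i
      refine sy_adj hpar ?_
      simp only [Fin.val_castSucc, Fin.val_succ]
      rcases lt_trichotomy i.1 n with hi | hi | hi
      · rw [dif_pos (by omega), dif_pos (by omega)]
        have h1 := hf.2.2 ⟨n - (i.1 + 1), by omega⟩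
        simp only [Fin.castSucc_mk, Fin.succ_mk] at h1
        have e : n - (i.1 + 1) + 1 = n - i.1 := by omega
        simp only [e] at h1
        exact adj_symm' h1
      · rw [dif_pos (by omega), dif_neg (by omega)]
        have h1 := hg.2.2 ⟨0, by omega⟩
        simp only [Fin.castSucc_mk, Fin.succ_mk] at h1
        have e1 : f ⟨n - i.1, by omega⟩ = 0 := by
          have : (⟨n - i.1, by omega⟩ : Fin (n + 1)) = 0 := Fin.ext (by simp; omega)
          rw [this]
          exact hf.1
        have e2 : g ⟨0, by omega⟩ = 0 := hg.1
        rw [e1]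
        rw [e2] at h1
        have e3 : i.1 + 1 - n = 0 + 1 := by omega
        simp only [e3]
        exact h1
      · rw [dif_neg (by omega), dif_neg (by omega)]
        have h1 := hg.2.2 ⟨i.1 - n, by omega⟩
        simp only [Fin.castSucc_mk, Fin.succ_mk] at h1
        have e : i.1 - n + 1 = i.1 + 1 - n := by omega
        simp only [e] at h1
        exact h1
  · rintro ⟨f, g⟩ ⟨f', g'⟩ ⟨hf, hg, hd⟩ ⟨hf', hg', hd'⟩ heq
    simp only at hf hg hf' hg' heq
    -- the point at time `n` determines the end of `f`
    have hn := congrFun heq ⟨n, by omega⟩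
    simp only [le_refl, dite_true, Nat.sub_self] at hn
    have e1 : f ⟨0, by omega⟩ = 0 := hf.1
    have e2 : f' ⟨0, by omega⟩ = 0 := hf'.1
    rw [e1, e2] at hn
    have hu : f (Fin.last n) = f' (Fin.last n) := by
      unfold sy at hn
      split_ifs at hn <;> simp only [Prod.mk.injEq, Prod.fst_zero, Prod.snd_zero] at hn <;>
        exact Prod.ext (by omega) (by omega)
    rw [hu] at heq
    have hff : f = f' := by
      funext i
      have h1 := congrFun heq ⟨n - i.1, by omega⟩
      simp only at h1
      have h2 := sy_inj h1
      rw [dif_pos (by omega), dif_pos (by omega)] at h2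
      have e : n - (n - i.1) = i.1 := by omega
      simp only [e] at h2
      exact h2
    have hgg : g = g' := by
      funext i
      by_cases hi : i.1 = 0
      · have : i = 0 := Fin.ext hi
        rw [this, hg.1, hg'.1]
      · have h1 := congrFun heq ⟨n + i.1, by omega⟩
        simp only at h1
        have h2 := sy_inj h1
        rw [dif_neg (by omega), dif_neg (by omega)] at h2
        have e : n + i.1 - n = i.1 := by omega
        simp only [e] at h2
        exact h2
    rw [hff, hgg]
  · intro F hF
    have hpar := saws_parity hF n (by omega)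
    refine ⟨(fun i : Fin (n + 1) => sy n (F ⟨n, by omega⟩) (F ⟨n - i.1, by omega⟩),
      fun i : Fin (m + 1) => sy n (F ⟨n, by omega⟩) (F ⟨n + i.1, by omega⟩)), ⟨⟨?_, ?_, ?_⟩,
        ⟨?_, ?_, ?_⟩, ?_⟩, ?_⟩
    · simp only [Fin.val_zero, Nat.sub_zero]
      exact sy_self _ _
    · intro i j hij
      have := hF.2.1 (sy_inj hij)
      simp only [Fin.mk.injEq] at this
      have := i.2
      have := j.2
      exact Fin.ext (by omega)
    · intro i
      refine sy_adj hpar ?_
      simp only [Fin.val_castSucc, Fin.val_succ]
      have h1 := hF.2.2 ⟨n - (i.1 + 1), by omega⟩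
      simp only [Fin.castSucc_mk, Fin.succ_mk] at h1
      have e : n - (i.1 + 1) + 1 = n - i.1 := by omega
      simp only [e] at h1
      exact adj_symm' h1
    · simp only [Fin.val_zero, Nat.add_zero]
      exact sy_self _ _
    · intro i j hij
      have := hF.2.1 (sy_inj hij)
      simp only [Fin.mk.injEq] at this
      exact Fin.ext (by omega)
    · intro i
      refine sy_adj hpar ?_
      simp only [Fin.val_castSucc, Fin.val_succ]
      have h1 := hF.2.2 ⟨n + i.1, by omega⟩
      exact h1
    · intro i j hi hij
      simp only at hij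
      have h3 := hF.2.1 (sy_inj hij)
      simp only [Fin.mk.injEq] at h3
      have h4 := i.2
      exact hi (Fin.ext (by simp only [Fin.val_zero]; omega))
    · funext k
      simp only [Fin.val_last, Nat.sub_self]
      have e0 : sy n (F ⟨n, by omega⟩) (F ⟨0, by omega⟩) = sy n (F ⟨n, by omega⟩) 0 := by
        have : F ⟨0, by omega⟩ = 0 := hF.1
        rw [this]
      rw [e0]
      split_ifs with hk
      · have e : n - (n - k.1) = k.1 := by omega
        simp only [e]
        exact sy_sy _ _ _
      · have e : n + (k.1 - n) = k.1 := by omega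
        simp only [e]
        exact sy_sy _ _ _

end Pool.Agent.NH41.HD
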