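import Pool.Agent.R956.V2
import Pool.Agent.TH232.Hex.Dis

/-!
Sequences `r n ≥ 1` with `log r n` between `a log n - 1` and `K (log n)^2` which vary slowly: the
ratios `r (2 n) / r n ^ 2` and `r (n + m) / (r n r m)`.
-/

set_option autoImplicit false

namespace Pool.Agent.NH41.HF

open Filter Topology
open Pool.Agent.R956 V1
open Pool.Agent.R956.D2 (f)

/-- the hypotheses -/
structure HS (r : ℕ → ℝ) (K β a : ℝ) : Prop where
  S : Sq r K β
  up : ∀ n : ℕ, 2 ≤ n → r n ≤ Real.exp (K * Real.log n ^ 2)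
  a0 : 0 < a
  lo : ∀ n : ℕ, 1 ≤ n → a * Real.log n - 1 ≤ Real.log (r n)

variable {r : ℕ → ℝ} {K β a : ℝ}

lemma psum (H : HS r K β a) (n J : ℕ) :
    ∑ j ∈ Finset.range J, (1 / 2 : ℝ) ^ (j + 1) * (-Real.log (P r (2 ^ j * n))) =
      Real.log (r n) - (1 / 2) ^ J * Real.log (r (2 ^ J * n)) := by
  induction J with
  | zero => simp
  | succ J ih =>
    rw [Finset.sum_range_succ, ih, log_P H.S]
    have e : 2 * (2 ^ J * n) = 2 ^ (J + 1) * n := by ring
    rw [e]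
    ring

lemma geo (x y : ℝ) (J : ℕ) :
    ∑ j ∈ Finset.range J, (1 / 2 : ℝ) ^ (j + 1) * (x + j * y) =
      x * (1 - (1 / 2) ^ J) + y * (1 - (J + 1) * (1 / 2) ^ J) := by
  induction J with
  | zero => simp
  | succ J ih =>
    rw [Finset.sum_range_succ, ih]
    push_cast
    ring

lemma geo_le {x y : ℝ} (hx : 0 ≤ x) (hy : 0 ≤ y) (J : ℕ) :
    ∑ j ∈ Finset.range J, (1 / 2 : ℝ) ^ (j + 1) * (x + j * y) ≤ x + y := by
  rw [geo]
  have h : (0 : ℝ) ≤ (1 / 2) ^ J := by positivity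
  have h2 : 0 ≤ x * (1 / 2) ^ J := mul_nonneg hx h
  have h3 : 0 ≤ y * ((J + 1) * (1 / 2) ^ J) := mul_nonneg hy (mul_nonneg (by positivity) h)
  nlinarith

/-- **a good length `2 ^ j n` with `2 ^ j ≤ A log n`** -/
theorem exists_good (H : HS r K β a) {δ : ℝ} (hδ : δ < a) :
    ∃ A : ℝ, 0 < A ∧ ∀ᶠ n : ℕ in atTop, ∃ j : ℕ, (2 : ℝ) ^ j ≤ A * Real.log n ∧
      P r (2 ^ j * n) ≤ ((2 ^ j * n : ℕ) : ℝ) ^ (-δ) := by
  obtain ⟨d, hd1, hd2⟩ := exists_between (max_lt hδ H.a0)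
  have hd0 : 0 < d := lt_of_le_of_lt (le_max_right _ _) hd1
  have hdδ : δ < d := lt_of_le_of_lt (le_max_left _ _) hd1
  have hK := H.S.hK
  obtain ⟨A, hA⟩ : ∃ A : ℝ, A = 16 * K / (a - d) + 1 := ⟨_, rfl⟩
  have had : 0 < a - d := by linarith
  have hA0 : 0 < A := by rw [hA]; positivity
  have hlog : Tendsto (fun n : ℕ => Real.log (n : ℝ)) atTop atTop :=
    Real.tendsto_log_atTop.comp tendsto_natCast_atTop_atTop
  have hlit : ∀ᶠ n : ℕ in atTop, Real.log (n : ℝ) / n ≤ 1 / (2 * A) := by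
    have h1 : Tendsto (fun x : ℝ => Real.log x / x) atTop (𝓝 0) := by
      have := Real.isLittleO_log_id_atTop.tendsto_div_nhds_zero
      simpa using this
    exact (h1.comp tendsto_natCast_atTop_atTop).eventually_le_const (by positivity)
  refine ⟨A, hA0, ?_⟩
  filter_upwards [hlog.eventually_ge_atTop (1 / A), hlog.eventually_ge_atTop (1 : ℝ),
    hlog.eventually_gt_atTop (4 * (1 + d) / (3 * (a - d))), hlit, eventually_ge_atTop 2]
    with n h1 h2 h3 h4 hn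
  have hn0 : (0 : ℝ) < n := by exact_mod_cast (show 0 < n by omega)
  obtain ⟨ℓ, hℓ⟩ : ∃ ℓ, ℓ = Real.log (n : ℝ) := ⟨_, rfl⟩
  rw [← hℓ] at h1 h2 h3 h4 ⊢
  have h2A : 2 * (A * ℓ) ≤ n := by
    rw [div_le_div_iff₀ hn0 (by positivity)] at h4
    linarith
  have hx : 1 ≤ A * ℓ := by
    rw [div_le_iff₀ hA0] at h1
    linarith
  obtain ⟨J, hJ1, hJ2⟩ := exists_nat_pow_near hx (one_lt_two)
  by_contra hcon
  push Not at hcon
  have hlog2 : 0 ≤ Real.log 2 := Real.log_nonneg (by norm_num)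
  have hlog21 : Real.log 2 ≤ 1 := by linarith [Real.log_two_lt_d9]
  have h5 : ∀ j ∈ Finset.range (J + 1), (1 / 2 : ℝ) ^ (j + 1) * (-Real.log (P r (2 ^ j * n))) ≤
      (1 / 2 : ℝ) ^ (j + 1) * (d * ℓ + j * (d * Real.log 2)) := by
    intro j hj
    rw [Finset.mem_range] at hj
    refine mul_le_mul_of_nonneg_left ?_ (by positivity)
    have hpow : (2 : ℝ) ^ j ≤ 2 ^ J := pow_le_pow_right₀ (by norm_num) (by omega)
    have h6 := hcon j (hpow.trans hJ1)
    have hpos : (1 : ℝ) ≤ ((2 ^ j * n : ℕ) : ℝ) := by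
      have : 1 ≤ 2 ^ j * n := Nat.mul_pos (by positivity) (by omega)
      exact_mod_cast this
    have h7 : ((2 ^ j * n : ℕ) : ℝ) ^ (-d) ≤ ((2 ^ j * n : ℕ) : ℝ) ^ (-δ) :=
      Real.rpow_le_rpow_of_exponent_le hpos (by linarith)
    have h8 := Real.log_le_log (Real.rpow_pos_of_pos (by linarith) _) (h7.trans h6.le)
    rw [Real.log_rpow (by linarith)] at h8
    have h9 : Real.log ((2 ^ j * n : ℕ) : ℝ) = j * Real.log 2 + ℓ := by
      push_cast
      rw [Real.log_mul (by positivity) hn0.ne', Real.log_pow, hℓ]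
    rw [h9] at h8
    linarith
  have h10 := (Finset.sum_le_sum h5).trans (geo_le (by positivity) (by positivity) _)
  rw [psum H] at h10
  have h11 : Real.log (r (2 ^ (J + 1) * n)) ≤ K * (2 * ℓ) ^ 2 := by
    have h12 : 2 ≤ 2 ^ (J + 1) * n := hn.trans (Nat.le_mul_of_pos_left _ (by positivity))
    have h13 := Real.log_le_log (H.S.pos _) (H.up _ h12)
    rw [Real.log_exp] at h13
    refine h13.trans (mul_le_mul_of_nonneg_left ?_ hK)
    refine pow_le_pow_left₀ (Real.log_natCast_nonneg _) ?_ 2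
    have h14 : ((2 ^ (J + 1) * n : ℕ) : ℝ) ≤ n * n := by
      push_cast
      refine mul_le_mul_of_nonneg_right ?_ hn0.le
      calc (2 : ℝ) ^ (J + 1) = 2 * 2 ^ J := by ring
        _ ≤ 2 * (A * ℓ) := by linarith
        _ ≤ n := h2A
    have h15 := Real.log_le_log (by exact_mod_cast (show 0 < 2 ^ (J + 1) * n by omega)) h14
    rw [Real.log_mul hn0.ne' hn0.ne', ← hℓ] at h15
    linarith
  have h16 : (1 / 2 : ℝ) ^ (J + 1) * Real.log (r (2 ^ (J + 1) * n)) ≤ (a - d) / 4 * ℓ := by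
    have h17 : (1 / 2 : ℝ) ^ (J + 1) ≤ 1 / (A * ℓ) := by
      rw [one_div_pow]
      exact one_div_le_one_div_of_le (by linarith) hJ2.le
    calc (1 / 2 : ℝ) ^ (J + 1) * Real.log (r (2 ^ (J + 1) * n)) ≤ 1 / (A * ℓ) * (K * (2 * ℓ) ^ 2) :=
          mul_le_mul h17 h11 (Real.log_nonneg (H.S.one_le _)) (by positivity)
      _ = 4 * K / A * ℓ := by field_simp; ring
      _ ≤ _ := by
        refine mul_le_mul_of_nonneg_right ?_ (by linarith)
        rw [div_le_iff₀ hA0, hA]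
        field_simp
        nlinarith
  have h18 := H.lo n (by omega)
  rw [← hℓ] at h18
  rw [div_lt_iff₀ (by positivity)] at h3
  nlinarith

/-- **smoothness** -/
theorem smooth (H : HS r K β a) (A : ℝ) {δ δ' : ℝ} (hδ : δ < δ') :
    ∀ᶠ m : ℕ in atTop, ∀ i : ℕ, (i : ℝ) ≤ A * Real.log m → P r m ≤ (m : ℝ) ^ (-δ') →
      P r (m + i) ≤ ((m + i : ℕ) : ℝ) ^ (-δ) := by
  obtain ⟨K', hK', hrate⟩ := P_rate H.S
  obtain ⟨η, hη, hη2⟩ : ∃ η : ℝ, 0 < η ∧ η * |A| ≤ (δ' - δ) / 4 := by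
    refine ⟨(δ' - δ) / (4 * (|A| + 1)), div_pos (by linarith) (by positivity), ?_⟩
    rw [div_mul_eq_mul_div, div_le_iff₀ (by positivity)]
    nlinarith [abs_nonneg A]
  have htwo := two_gen (P_pos H.S) hrate hη
  have hone := P_step H.S one_pos
  obtain ⟨M, hM⟩ := (htwo.and hone).exists_forall_of_atTop
  have hlog : Tendsto (fun n : ℕ => Real.log (n : ℝ)) atTop atTop :=
    Real.tendsto_log_atTop.comp tendsto_natCast_atTop_atTop
  have hlit : ∀ᶠ n : ℕ in atTop, Real.log (n : ℝ) / n ≤ 1 / (|A| + 1) := by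
    have h1 : Tendsto (fun x : ℝ => Real.log x / x) atTop (𝓝 0) := by
      have := Real.isLittleO_log_id_atTop.tendsto_div_nhds_zero
      simpa using this
    exact (h1.comp tendsto_natCast_atTop_atTop).eventually_le_const (by positivity)
  have hpow : ∀ c : ℝ, ∀ e : ℝ, 0 < e → ∀ᶠ n : ℕ in atTop, c ≤ (n : ℝ) ^ e := fun c e he =>
    ((tendsto_rpow_atTop he).comp tendsto_natCast_atTop_atTop).eventually_ge_atTop c
  filter_upwards [hlog.eventually_ge_atTop (0 : ℝ), hpow (β ^ 2 + 1) ((δ' - δ) / 4) (by linarith),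
    hpow (2 ^ |δ|) ((δ' - δ) / 2) (by linarith), hlit, eventually_ge_atTop (max M 2)]
    with m h1 h2 h3 h4 hm i hi hP
  have hmM : M ≤ m := (le_max_left _ _).trans hm
  have hm2 : 2 ≤ m := (le_max_right _ _).trans hm
  have hm0 : (0 : ℝ) < m := by exact_mod_cast (show 0 < m by omega)
  have key : ∀ l : ℕ, P r (m + 2 * l) ≤ (1 + η) ^ l * P r m := by
    intro l
    induction l with
    | zero => simp
    | succ l ih =>
      have h := (hM (m + 2 * l) (by omega)).1.1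
      calc P r (m + 2 * (l + 1)) ≤ (1 + η) * P r (m + 2 * l) := h
        _ ≤ (1 + η) * ((1 + η) ^ l * P r m) := mul_le_mul_of_nonneg_left ih (by linarith)
        _ = _ := by ring
  have hexp : ∀ l : ℕ, l ≤ i → (1 + η) ^ l ≤ (m : ℝ) ^ ((δ' - δ) / 4) := by
    intro l hl
    have hl' : (l : ℝ) ≤ i := by exact_mod_cast hl
    calc (1 + η) ^ l ≤ Real.exp η ^ l :=
          pow_le_pow_left₀ (by linarith) (by linarith [Real.add_one_le_exp η]) l
      _ = Real.exp (l * η) := by rw [← Real.exp_nat_mul]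
      _ ≤ Real.exp (Real.log m * ((δ' - δ) / 4)) := by
          apply Real.exp_le_exp.mpr
          have e1 : (l : ℝ) ≤ |A| * Real.log m :=
            hl'.trans (hi.trans (mul_le_mul_of_nonneg_right (le_abs_self A) h1))
          calc (l : ℝ) * η ≤ (|A| * Real.log m) * η := mul_le_mul_of_nonneg_right e1 hη.le
            _ = Real.log m * (η * |A|) := by ring
            _ ≤ _ := mul_le_mul_of_nonneg_left hη2 h1
      _ = _ := by rw [Real.rpow_def_of_pos hm0]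
  have hi2 : (i : ℝ) ≤ m := by
    rw [div_le_div_iff₀ hm0 (by positivity)] at h4
    have e1 : (i : ℝ) ≤ |A| * Real.log m := hi.trans (mul_le_mul_of_nonneg_right (le_abs_self A) h1)
    nlinarith
  have hPm := P_pos H.S m
  -- both parities
  have hmain : P r (m + i) ≤ (m : ℝ) ^ ((δ' - δ) / 4) * ((m : ℝ) ^ ((δ' - δ) / 4) * P r m) := by
    have hp : (0 : ℝ) < (m : ℝ) ^ ((δ' - δ) / 4) := Real.rpow_pos_of_pos hm0 _
    have hb1 : (1 : ℝ) ≤ (m : ℝ) ^ ((δ' - δ) / 4) := by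
      refine le_trans ?_ h2
      nlinarith [sq_nonneg β]
    rcases Nat.even_or_odd' i with ⟨l, hl | hl⟩
    · rw [hl]
      refine (key l).trans ?_
      have := mul_le_mul_of_nonneg_right (hexp l (by omega)) hPm.le
      refine this.trans (le_mul_of_one_le_left (by positivity) hb1)
    · rw [hl, ← Nat.add_assoc]
      refine ((hM (m + 2 * l) (by omega)).2.1).trans ?_
      refine mul_le_mul h2 ?_ (P_pos H.S _).le hp.le
      exact (key l).trans (mul_le_mul_of_nonneg_right (hexp l (by omega)) hPm.le)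
  refine hmain.trans ?_
  have e1 : (m : ℝ) ^ ((δ' - δ) / 4) * ((m : ℝ) ^ ((δ' - δ) / 4) * P r m) ≤
      (m : ℝ) ^ ((δ' - δ) / 2) * (m : ℝ) ^ (-δ') := by
    rw [← mul_assoc, ← Real.rpow_add hm0]
    have : (δ' - δ) / 4 + (δ' - δ) / 4 = (δ' - δ) / 2 := by ring
    rw [this]
    exact mul_le_mul_of_nonneg_left hP (Real.rpow_nonneg hm0.le _)
  refine e1.trans ?_
  have e2 : (m : ℝ) ^ ((δ' - δ) / 2) * (m : ℝ) ^ (-δ') =
      (m : ℝ) ^ (-δ) / (m : ℝ) ^ ((δ' - δ) / 2) := by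
    rw [← Real.rpow_add hm0, ← Real.rpow_sub hm0]
    congr 1
    ring
  rw [e2, div_le_iff₀ (Real.rpow_pos_of_pos hm0 _)]
  have hmi : ((m + i : ℕ) : ℝ) = m * (1 + i / m) := by
    push_cast
    field_simp
  have hq0 : (0 : ℝ) ≤ (i : ℝ) / m := by positivity
  have hq1 : (i : ℝ) / m ≤ 1 := by rwa [div_le_one hm0]
  rw [hmi, Real.mul_rpow hm0.le (by linarith)]
  have e3 : (1 : ℝ) ≤ (1 + (i : ℝ) / m) ^ (-δ) * 2 ^ |δ| := by
    rcases le_total 0 δ with hδ0 | hδ0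
    · rw [abs_of_nonneg hδ0, Real.rpow_neg (by linarith), ← div_eq_inv_mul,
        one_le_div (Real.rpow_pos_of_pos (by linarith) _)]
      exact Real.rpow_le_rpow (by linarith) (by linarith) hδ0
    · refine one_le_mul_of_one_le_of_one_le ?_ ?_
      · exact Real.one_le_rpow (by linarith) (by linarith)
      · exact Real.one_le_rpow (by norm_num) (abs_nonneg _)
  have hmd : (0 : ℝ) < (m : ℝ) ^ (-δ) := Real.rpow_pos_of_pos hm0 _
  calc (m : ℝ) ^ (-δ) ≤ (m : ℝ) ^ (-δ) * ((1 + (i : ℝ) / m) ^ (-δ) * 2 ^ |δ|) :=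
        le_mul_of_one_le_right hmd.le e3
    _ ≤ (m : ℝ) ^ (-δ) * ((1 + (i : ℝ) / m) ^ (-δ) * (m : ℝ) ^ ((δ' - δ) / 2)) := by
        refine mul_le_mul_of_nonneg_left (mul_le_mul_of_nonneg_left h3 ?_) hmd.le
        exact Real.rpow_nonneg (by linarith) _
    _ = _ := by ring

end Pool.Agent.NH41.HF
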