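import Pool.Agent.NH41.HF

/-!
The set of lengths with a small non-intersection probability; unequal lengths; the honeycomb lattice.
-/

set_option autoImplicit false

namespace Pool.Agent.NH41.HF

open Filter Topology
open Pool.Agent.R956 V1
open Pool.Agent.R956.D2 (f)

variable {r : ℕ → ℝ} {K β a : ℝ}

/-- **equal lengths** -/
theorem frequent (H : HS r K β a) {δ : ℝ} (hδ : δ < a) :
    ∃ A : ℝ, ∀ᶠ N : ℕ in atTop, (1 / 2 : ℝ) ≤
      ∑ m ∈ (Finset.Icc N ⌊A * N * Real.log N⌋₊).filter (fun m : ℕ => P r m ≤ (m : ℝ) ^ (-δ)),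
        1 / (m : ℝ) := by
  classical
  obtain ⟨d, hd1, hd2⟩ := exists_between hδ
  obtain ⟨A, hA0, hA⟩ := exists_good H hd2
  obtain ⟨N0, hN0⟩ := hA.exists_forall_of_atTop
  obtain ⟨N1, hN1⟩ := (smooth H A hd1).exists_forall_of_atTop
  refine ⟨4 * A, ?_⟩
  filter_upwards [eventually_ge_atTop (max N0 (max N1 2))] with N hN
  have hNN0 : N0 ≤ N := (le_max_left _ _).trans hN
  have hNN1 : N1 ≤ N := ((le_max_left _ _).trans (le_max_right _ _)).trans hN
  have hN2 : 2 ≤ N := ((le_max_right _ _).trans (le_max_right _ _)).trans hN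
  have hNr : (2 : ℝ) ≤ N := by exact_mod_cast hN2
  choose! j hj1 hj2 using fun n (hn : N ≤ n) => hN0 n (hNN0.trans hn)
  obtain ⟨I, hI⟩ : ∃ I : ℕ → Finset ℕ, I = fun n => Finset.Ico (2 ^ j n * n) (2 ^ j n * (n + 1)) :=
    ⟨_, rfl⟩
  have hdisj : (↑(Finset.Ico N (2 * N)) : Set ℕ).PairwiseDisjoint I := by
    intro n hn n' hn' hne
    rw [Finset.coe_Ico, Set.mem_Ico] at hn hn'
    rw [Function.onFun, Finset.disjoint_left]
    intro m hm hm'
    rw [hI] at hm hm'
    simp only [Finset.mem_Ico] at hm hm'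
    have h2 : ∀ k : ℕ, 0 < 2 ^ k := fun k => by positivity
    have e1 : m / 2 ^ j n = n := by
      rw [Nat.div_eq_iff (h2 _)]
      constructor
      · rw [mul_comm]; exact hm.1
      · have := hm.2
        rw [mul_comm, Nat.add_mul, one_mul] at this
        omega
    have e2 : m / 2 ^ j n' = n' := by
      rw [Nat.div_eq_iff (h2 _)]
      constructor
      · rw [mul_comm]; exact hm'.1
      · have := hm'.2
        rw [mul_comm, Nat.add_mul, one_mul] at this
        omega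
    rcases lt_trichotomy (j n) (j n') with h | h | h
    · have h3 : 2 * 2 ^ j n ≤ 2 ^ j n' := by
        rw [← pow_succ']
        exact Nat.pow_le_pow_right (by norm_num) h
      have h4 : m / 2 ^ j n' ≤ m / (2 * 2 ^ j n) := Nat.div_le_div_left h3 (by positivity)
      rw [mul_comm, ← Nat.div_div_eq_div_mul, e1, e2] at h4
      omega
    · rw [h] at e1
      exact hne (e1.symm.trans e2)
    · have h3 : 2 * 2 ^ j n' ≤ 2 ^ j n := by
        rw [← pow_succ']
        exact Nat.pow_le_pow_right (by norm_num) h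
      have h4 : m / 2 ^ j n ≤ m / (2 * 2 ^ j n') := Nat.div_le_div_left h3 (by positivity)
      rw [mul_comm, ← Nat.div_div_eq_div_mul, e1, e2] at h4
      omega
  have hlogN : 0 < Real.log N := Real.log_pos (by linarith)
  have hlogn : ∀ n ∈ Finset.Ico N (2 * N), Real.log n ≤ 2 * Real.log N := by
    intro n hn
    rw [Finset.mem_Ico] at hn
    have h1 : (n : ℝ) ≤ N * N := by
      have : n ≤ N * N := by nlinarith
      exact_mod_cast this
    have h2 := Real.log_le_log (by exact_mod_cast (show 0 < n by omega)) h1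
    rw [Real.log_mul (by positivity) (by positivity)] at h2
    linarith
  have hsub : (Finset.Ico N (2 * N)).biUnion I ⊆
      (Finset.Icc N ⌊4 * A * N * Real.log N⌋₊).filter
        (fun m : ℕ => P r m ≤ (m : ℝ) ^ (-δ)) := by
    intro m hm
    rw [Finset.mem_biUnion] at hm
    obtain ⟨n, hn, hm⟩ := hm
    have hn' := Finset.mem_Ico.mp hn
    rw [hI] at hm
    simp only [Finset.mem_Ico] at hm
    have hj := hj1 n hn'.1
    have hln := hlogn n hn
    have hpow : 1 ≤ 2 ^ j n := Nat.one_le_two_pow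
    rw [Finset.mem_filter, Finset.mem_Icc]
    refine ⟨⟨?_, ?_⟩, ?_⟩
    · calc N ≤ n := hn'.1
        _ ≤ 2 ^ j n * n := Nat.le_mul_of_pos_left _ (by omega)
        _ ≤ m := hm.1
    · apply Nat.le_floor
      have h1 : (m : ℝ) ≤ (2 : ℝ) ^ j n * (n + 1) := by exact_mod_cast hm.2.le
      have h2 : (n : ℝ) + 1 ≤ 2 * N := by exact_mod_cast (show n + 1 ≤ 2 * N by omega)
      calc (m : ℝ) ≤ (2 : ℝ) ^ j n * (n + 1) := h1
        _ ≤ (A * (2 * Real.log N)) * (2 * N) := by
          refine mul_le_mul (hj.trans (mul_le_mul_of_nonneg_left hln hA0.le)) h2 (by positivity)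
            (by positivity)
        _ = 4 * A * N * Real.log N := by ring
    · obtain ⟨i, rfl⟩ : ∃ i, m = 2 ^ j n * n + i := ⟨m - 2 ^ j n * n, by omega⟩
      have hi : i ≤ 2 ^ j n := by
        have := hm.2
        rw [mul_add, mul_one] at this
        omega
      have hM : N ≤ 2 ^ j n * n := hn'.1.trans (Nat.le_mul_of_pos_left _ (by omega))
      refine hN1 _ (hNN1.trans hM) i ?_ (hj2 n hn'.1)
      have h1 : (i : ℝ) ≤ (2 : ℝ) ^ j n := by exact_mod_cast hi
      refine (h1.trans hj).trans (mul_le_mul_of_nonneg_left ?_ hA0.le)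
      apply Real.log_le_log (by exact_mod_cast (show 0 < n by omega))
      exact_mod_cast Nat.le_mul_of_pos_left _ (show 0 < 2 ^ j n by omega)
  refine le_trans ?_ (Finset.sum_le_sum_of_subset_of_nonneg hsub fun m _ _ => by positivity)
  rw [Finset.sum_biUnion hdisj]
  have hin : ∀ n ∈ Finset.Ico N (2 * N), 1 / (2 * (N : ℝ)) ≤ ∑ m ∈ I n, 1 / (m : ℝ) := by
    intro n hn
    have hn' := Finset.mem_Ico.mp hn
    have hpow : (0 : ℝ) < 2 ^ j n := by positivity
    have h1 : ∀ m ∈ I n, 1 / ((2 : ℝ) ^ j n * (2 * N)) ≤ 1 / (m : ℝ) := by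
      intro m hm
      rw [hI] at hm
      simp only [Finset.mem_Ico] at hm
      have hm0 : 0 < m := lt_of_lt_of_le (Nat.mul_pos (by positivity) (by omega)) hm.1
      refine one_div_le_one_div_of_le (by exact_mod_cast hm0) ?_
      have h1 : (m : ℝ) ≤ (2 : ℝ) ^ j n * (n + 1) := by exact_mod_cast hm.2.le
      have h2 : (n : ℝ) + 1 ≤ 2 * N := by exact_mod_cast (show n + 1 ≤ 2 * N by omega)
      exact h1.trans (mul_le_mul_of_nonneg_left h2 hpow.le)
    have h2 := Finset.card_nsmul_le_sum (I n) _ _ h1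
    have hc : (I n).card = 2 ^ j n := by
      rw [hI]
      simp only [Nat.card_Ico]
      rw [mul_add, mul_one, Nat.add_sub_cancel_left]
    rw [hc, nsmul_eq_mul] at h2
    refine le_trans (le_of_eq ?_) h2
    push_cast
    field_simp
  refine le_trans ?_ (Finset.sum_le_sum hin)
  rw [Finset.sum_const, Nat.card_Ico, nsmul_eq_mul, show 2 * N - N = N by omega]
  apply le_of_eq
  field_simp

/-- the ratio for two lengths -/
noncomputable def P2 (r : ℕ → ℝ) (n m : ℕ) : ℝ := r (n + m) / (r n * r m)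

/-- **unequal lengths** -/
theorem unequal (H : HS r K β a) {δ : ℝ} (hδ : δ < a) :
    ∃ C : ℝ, ∀ᶠ m : ℕ in atTop, ∀ n0 : ℕ, 1 ≤ n0 → (n0 : ℝ) ≤ (m : ℝ) ^ 3 →
      ∃ j : ℕ, (j : ℝ) ≤ C * Real.log m ∧ P2 r (n0 + j * m) m ≤ (m : ℝ) ^ (-δ) := by
  have hK := H.S.hK
  have had : 0 < a - δ := by linarith
  obtain ⟨C, hC⟩ : ∃ C : ℝ, C = 64 * K / (a - δ) + 1 := ⟨_, rfl⟩
  have hC0 : 0 < C := by rw [hC]; positivity
  have hlog : Tendsto (fun n : ℕ => Real.log (n : ℝ)) atTop atTop :=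
    Real.tendsto_log_atTop.comp tendsto_natCast_atTop_atTop
  have hlit : ∀ᶠ n : ℕ in atTop, Real.log (n : ℝ) / n ≤ 1 / (C + 2) := by
    have h1 : Tendsto (fun x : ℝ => Real.log x / x) atTop (𝓝 0) := by
      have := Real.isLittleO_log_id_atTop.tendsto_div_nhds_zero
      simpa using this
    exact (h1.comp tendsto_natCast_atTop_atTop).eventually_le_const (by positivity)
  refine ⟨C, ?_⟩
  filter_upwards [hlog.eventually_ge_atTop (1 : ℝ), hlog.eventually_ge_atTop (2 / (a - δ)), hlit,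
    eventually_ge_atTop 2] with m h1 h2 h4 hm n0 hn0 hn0m
  have hm0 : (0 : ℝ) < m := by exact_mod_cast (show 0 < m by omega)
  have hm2 : (2 : ℝ) ≤ m := by exact_mod_cast hm
  obtain ⟨ℓ, hℓ⟩ : ∃ ℓ, ℓ = Real.log (m : ℝ) := ⟨_, rfl⟩
  rw [← hℓ] at h1 h2 h4 ⊢
  by_contra hcon
  push Not at hcon
  obtain ⟨J, hJ⟩ : ∃ J : ℕ, J = ⌊C * ℓ⌋₊ := ⟨_, rfl⟩
  have hJ1 : (J : ℝ) ≤ C * ℓ := by rw [hJ]; exact Nat.floor_le (by positivity)
  have hJ2 : C * ℓ < J + 1 := by rw [hJ]; exact Nat.lt_floor_add_one _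
  have hlow := H.lo m (by omega)
  rw [← hℓ] at hlow
  have hhalf : (a - δ) / 2 * ℓ ≤ (a - δ) * ℓ - 1 := by
    rw [div_le_iff₀ had] at h2
    nlinarith
  have key : ∀ i : ℕ, i ≤ J + 1 → (i : ℝ) * ((a - δ) / 2 * ℓ) ≤ Real.log (r (n0 + i * m)) := by
    intro i
    induction i with
    | zero =>
      intro _
      simp only [Nat.cast_zero, zero_mul, Nat.zero_mul, Nat.add_zero]
      exact Real.log_nonneg (H.S.one_le _)
    | succ i ih =>
      intro hi
      have h5 := ih (by omega)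
      have hiJ : (i : ℝ) ≤ J := by exact_mod_cast (show i ≤ J by omega)
      have h6 := hcon i (hiJ.trans hJ1)
      have p1 := H.S.pos (n0 + i * m)
      have p2 := H.S.pos (n0 + i * m + m)
      have p3 := H.S.pos m
      unfold P2 at h6
      rw [lt_div_iff₀ (by positivity)] at h6
      have h7 := Real.log_le_log (by positivity) h6.le
      rw [Real.log_mul (Real.rpow_pos_of_pos hm0 _).ne' (by positivity), Real.log_rpow hm0,
        Real.log_mul p1.ne' p3.ne', ← hℓ] at h7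
      have e : n0 + i * m + m = n0 + (i + 1) * m := by ring
      rw [e] at h7
      push_cast
      nlinarith
  have h8 := key (J + 1) le_rfl
  have h9 : 2 ≤ n0 + (J + 1) * m := by nlinarith
  have h10 := Real.log_le_log (H.S.pos _) (H.up _ h9)
  rw [Real.log_exp] at h10
  have h11 : Real.log ((n0 + (J + 1) * m : ℕ) : ℝ) ≤ 4 * ℓ := by
    have h12 : ((n0 + (J + 1) * m : ℕ) : ℝ) ≤ (m : ℝ) ^ 4 := by
      push_cast
      have e1 : (J : ℝ) + 1 ≤ m := by
        rw [div_le_div_iff₀ hm0 (by positivity)] at h4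
        nlinarith
      have e2 : (m : ℝ) ^ 2 ≤ (m : ℝ) ^ 3 := pow_le_pow_right₀ (by linarith) (by norm_num)
      have e3 : 2 * (m : ℝ) ^ 3 ≤ (m : ℝ) ^ 4 := by
        have : (m : ℝ) ^ 4 = m * (m : ℝ) ^ 3 := by ring
        rw [this]
        exact mul_le_mul_of_nonneg_right hm2 (by positivity)
      nlinarith
    have h13 := Real.log_le_log (by exact_mod_cast (show 0 < n0 + (J + 1) * m by omega)) h12
    rw [Real.log_pow, ← hℓ] at h13
    exact_mod_cast h13
  have h14 : K * Real.log ((n0 + (J + 1) * m : ℕ) : ℝ) ^ 2 ≤ K * (4 * ℓ) ^ 2 :=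
    mul_le_mul_of_nonneg_left (pow_le_pow_left₀ (Real.log_natCast_nonneg _) h11 2) hK
  have h15 : (C * ℓ) * ((a - δ) / 2 * ℓ) ≤ ((J + 1 : ℕ) : ℝ) * ((a - δ) / 2 * ℓ) := by
    refine mul_le_mul_of_nonneg_right ?_ (by positivity)
    push_cast
    exact hJ2.le
  have h16 : (C * ℓ) * ((a - δ) / 2 * ℓ) = (32 * K + (a - δ) / 2) * ℓ ^ 2 := by
    rw [hC]
    field_simp
    ring
  have h17 : 0 < ℓ ^ 2 := by positivity
  nlinarith

end Pool.Agent.NH41.HF
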