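import Pool.Agent.NH41.HF2
import Pool.Agent.NH41.HD

/-!
The honeycomb lattice.
-/

set_option autoImplicit false

namespace Pool.Agent.NH41.HF

open Filter Topology
open Pool.Agent.R956 V1
open Pool.Agent.TH262.UL (Hy)

variable {r : ℕ → ℝ} {K β a : ℝ}

/-- one walk much longer than the other -/
theorem much_longer {K' c C : ℝ} (H : HS r K β a) (h : Hy r K' c C) :
    ∃ B : ℝ, 0 < B ∧ ∀ n m : ℕ, 2 ≤ n → 1 ≤ m → (m : ℝ) * Real.log n ≤ Real.sqrt n →
      P2 r n m ≤ B * (m : ℝ) ^ (-a) := by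
  have hK1 := h.K1
  have hC1 := h.C1
  obtain ⟨D, hD⟩ : ∃ D : ℝ, D = 1 + 5 * K' * Real.exp (5 * K') := ⟨_, rfl⟩
  have hD0 : 0 < D := by rw [hD]; positivity
  refine ⟨C * D * Real.exp 1, by positivity, fun n m hn hm hs => ?_⟩
  have hn0 : (0 : ℝ) < n := by exact_mod_cast (show 0 < n by omega)
  have hm0 : (0 : ℝ) < m := by exact_mod_cast hm
  have hsn : 0 < Real.sqrt n := Real.sqrt_pos.mpr hn0
  have pn := H.S.pos n
  have pm := H.S.pos m
  have pnm := H.S.pos (n + m)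
  have even : ∀ k : ℕ, Even k → k ≤ m → r (n + k) ≤ D * r n := by
    intro k hk hkm
    have hkm' : (k : ℝ) ≤ m := by exact_mod_cast hkm
    have hk1 : (k : ℝ) * Real.log n ≤ Real.sqrt n :=
      (mul_le_mul_of_nonneg_right hkm' (Real.log_natCast_nonneg n)).trans hs
    have h1 := (abs_le.mp (h.near hn hk hk1)).2
    have h2 : 5 * K' * Real.exp (5 * K') * ((k : ℝ) * Real.log n / Real.sqrt n) ≤
        5 * K' * Real.exp (5 * K') * 1 := by
      refine mul_le_mul_of_nonneg_left ?_ (by positivity)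
      rwa [div_le_one hsn]
    rw [← div_le_iff₀ pn, hD]
    linarith
  have h1 : r (n + m) ≤ C * (D * r n) := by
    rcases Nat.even_or_odd m with he | ho
    · exact (even m he le_rfl).trans (le_mul_of_one_le_left (by positivity) hC1)
    · obtain ⟨k, hk⟩ := ho
      have h2 := even (2 * k) (even_two_mul k) (by omega)
      have h3 := h.up1 (n + 2 * k)
      rw [hk]
      exact h3.trans (mul_le_mul_of_nonneg_left h2 (by linarith))
  have h2 := H.lo m hm
  have h3 : (m : ℝ) ^ a ≤ Real.exp 1 * r m := by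
    rw [← Real.exp_log pm, ← Real.exp_add, Real.rpow_def_of_pos hm0, Real.exp_le_exp]
    linarith
  unfold P2
  rw [div_le_iff₀ (by positivity), Real.rpow_neg hm0.le]
  have hma : (0 : ℝ) < (m : ℝ) ^ a := Real.rpow_pos_of_pos hm0 _
  calc r (n + m) ≤ C * (D * r n) := h1
    _ = C * (D * r n) * ((m : ℝ) ^ a / (m : ℝ) ^ a) := by rw [div_self hma.ne', mul_one]
    _ ≤ C * (D * r n) * ((Real.exp 1 * r m) / (m : ℝ) ^ a) := by
        refine mul_le_mul_of_nonneg_left ?_ (by positivity)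
        exact div_le_div_of_nonneg_right h3 hma.le
    _ = _ := by field_simp

/-- **unequal lengths, all lengths of the longer walk** -/
theorem unequal_all {K' c C : ℝ} (H : HS r K β a) (h : Hy r K' c C) {δ : ℝ} (hδ : δ < a) :
    ∃ A : ℝ, ∀ᶠ m : ℕ in atTop, ∀ n0 : ℕ, 1 ≤ n0 →
      ∃ j : ℕ, (j : ℝ) ≤ A * Real.log m ∧ P2 r (n0 + j * m) m ≤ (m : ℝ) ^ (-δ) := by
  obtain ⟨A, hA⟩ := unequal H hδ
  obtain ⟨B, hB, hfar⟩ := much_longer H h
  have hpow : ∀ᶠ m : ℕ in atTop, B ≤ (m : ℝ) ^ (a - δ) :=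
    ((tendsto_rpow_atTop (by linarith)).comp tendsto_natCast_atTop_atTop).eventually_ge_atTop B
  have hlit : ∀ᶠ x : ℝ in atTop, Real.log x ≤ x ^ ((1 : ℝ) / 6) := by
    have := (isLittleO_log_rpow_atTop (show (0 : ℝ) < 1 / 6 by norm_num)).bound
      (show (0 : ℝ) < 1 by norm_num)
    filter_upwards [this, eventually_ge_atTop 1] with x hx hx1
    rw [Real.norm_of_nonneg (Real.log_nonneg hx1),
      Real.norm_of_nonneg (Real.rpow_nonneg (by linarith) _), one_mul] at hx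
    exact hx
  obtain ⟨X, hX⟩ := hlit.exists_forall_of_atTop
  refine ⟨max A 0, ?_⟩
  filter_upwards [hA, hpow, eventually_ge_atTop 2, eventually_ge_atTop ⌈X⌉₊]
    with m hm hB2 hm2 hmX n0 hn0
  have hm2r : (2 : ℝ) ≤ m := by exact_mod_cast hm2
  have hm0 : (0 : ℝ) < m := by linarith
  have hlogm : 0 ≤ Real.log m := Real.log_natCast_nonneg m
  rcases le_or_gt (n0 : ℝ) ((m : ℝ) ^ 3) with hc | hc
  · obtain ⟨j, hj1, hj2⟩ := hm n0 hn0 hc
    exact ⟨j, hj1.trans (mul_le_mul_of_nonneg_right (le_max_left _ _) hlogm), hj2⟩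
  · refine ⟨0, by simpa using mul_nonneg (le_max_right A 0) hlogm, ?_⟩
    rw [zero_mul, Nat.add_zero]
    have hmn : (m : ℝ) ≤ n0 := by
      have : (m : ℝ) ≤ (m : ℝ) ^ 3 := le_self_pow₀ (by linarith) (by norm_num)
      linarith
    have hn00 : (0 : ℝ) < n0 := by linarith
    have hlog := hX (n0 : ℝ) ((Nat.le_ceil X).trans ((by exact_mod_cast hmX :
      ((⌈X⌉₊ : ℕ) : ℝ) ≤ m).trans hmn))
    have hm3 : (m : ℝ) ≤ (n0 : ℝ) ^ ((1 : ℝ) / 3) := by
      have h1 : ((m : ℝ) ^ 3) ^ ((1 : ℝ) / 3) ≤ (n0 : ℝ) ^ ((1 : ℝ) / 3) :=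
        Real.rpow_le_rpow (by positivity) hc.le (by norm_num)
      rw [← Real.rpow_natCast, ← Real.rpow_mul hm0.le] at h1
      norm_num at h1
      exact h1
    have hs : (m : ℝ) * Real.log n0 ≤ Real.sqrt n0 := by
      rw [Real.sqrt_eq_rpow]
      calc (m : ℝ) * Real.log n0 ≤ (n0 : ℝ) ^ ((1 : ℝ) / 3) * (n0 : ℝ) ^ ((1 : ℝ) / 6) :=
            mul_le_mul hm3 hlog (Real.log_natCast_nonneg _) (by positivity)
        _ = (n0 : ℝ) ^ ((1 : ℝ) / 2) := by
            rw [← Real.rpow_add hn00]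
            norm_num
    have hn2 : 2 ≤ n0 := by
      have : (2 : ℝ) ≤ n0 := by linarith
      exact_mod_cast this
    refine (hfar n0 m hn2 (by omega) hs).trans ?_
    calc B * (m : ℝ) ^ (-a) ≤ (m : ℝ) ^ (a - δ) * (m : ℝ) ^ (-a) :=
          mul_le_mul_of_nonneg_right hB2 (Real.rpow_nonneg hm0.le _)
      _ = (m : ℝ) ^ (-δ) := by
          rw [← Real.rpow_add hm0]
          congr 1
          ring

/-! ### the honeycomb lattice -/

open H978R2.Hex in
/-- the normalised numbers of walks -/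
noncomputable def rh (n : ℕ) : ℝ := ((saws n).ncard : ℝ) / mu0 ^ n

open H978R2.Hex in
theorem hex_facts : ∃ K β K' c C : ℝ, HS rh K β (1 / 75) ∧ Hy rh K' c C := by
  obtain ⟨μ, hμ⟩ : ∃ μ : ℝ, μ = (⨅ n : {n : ℕ // 1 ≤ n},
    (((fun n => (saws n).ncard) n.1 : ℝ) ^ ((1 : ℝ) / (n.1 : ℝ)))) := ⟨_, rfl⟩
  obtain ⟨-, -, hμ2⟩ := Pool.Agent.Y943.SL.wk_hex (fun n => (saws n).ncard) (fun n => rfl) μ hμ
  obtain ⟨-, -, -, K, hS⟩ := Pool.Agent.R956.V2.hex (fun n => (saws n).ncard) (fun n => rfl) μ hμ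
  obtain ⟨K', c, C, hy⟩ := Pool.Agent.Y943.SL.hy_hex (fun n => (saws n).ncard) (fun n => rfl) μ hμ
  have e : (fun n : ℕ => ((saws n).ncard : ℝ) / μ ^ n) = rh := by
    funext n
    rw [hμ2]
    rfl
  have e' : (fun n : ℕ => (((fun n => (saws n).ncard) n : ℕ) : ℝ) / μ ^ n) = rh := e
  rw [e'] at hS hy
  refine ⟨max K K', 2 / μ, K', c, C, ⟨⟨hS.one_le, hS.hK.trans (le_max_left _ _), hS.hβ, ?_,
    hS.step, hS.sub⟩, ?_, by norm_num, ?_⟩, hy⟩
  · intro n hn
    exact (hS.rate n hn).trans (mul_le_mul_of_nonneg_right (le_max_left _ _)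
      (Pool.Agent.R956.D2.f_nonneg n))
  · intro n hn
    refine (hy.up n hn).trans (Real.exp_le_exp.mpr ?_)
    exact mul_le_mul_of_nonneg_right (le_max_right _ _) (sq_nonneg _)
  · intro n hn
    have h := Pool.Agent.TH232.Hex.Rn_lower75 n hn
    unfold Rn at h
    unfold rh
    rw [Real.log_div (saws_pos n).ne' (pow_pos mu0_pos n).ne', Real.log_pow]
    exact h

end Pool.Agent.NH41.HF
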